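import Mathlib
import Pool.Agent.TH254.CC.Chain

/-!
# Close II₁ factors have the same coupling constant

Two II₁ factors `M, N` on the same Hilbert space `H` at Kadison–Kastler distance less than
`10⁻²²` satisfy `dim_M(H) = dim_N(H)`, whatever the value of `dim_M(H)` in `(0, ∞]`.

`dim_M(H)` is the supremum of `∑ᵢ τ(pᵢ)` over the finite direct sums `⨁ᵢ L²(M)pᵢ` of left
`M`-modules contained in `H`. Every left `M`-module is a direct sum of modules `L²(M)pᵢ`, and its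
dimension is then `∑ᵢ τ(pᵢ)`; in particular `dim_M(L²(M)) = 1`.

A copy of the module `L²(M)p` in `H` is given by a vector `ζ` with `⟪ζ, x ζ⟫ = τ(x p)` for all
`x ∈ M`: then `‖x ζ‖² = τ(p x* x p)`, so that `x p ↦ x ζ` extends to an isometric isomorphism of
`L²(M)p` onto the closure of `M ζ`. Copies given by `ζ` and `ζ'` are orthogonal if and only if
`⟪ζ', x ζ⟫ = 0` for all `x ∈ M`.
-/

set_option autoImplicit false

open scoped ComplexOrder InnerProductSpace ENNReal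

namespace Pool.Agent.Results.MP_41729c_an.CouplingAgree

section Defs

variable {H : Type} [NormedAddCommGroup H] [InnerProductSpace ℂ H] [CompleteSpace H]

/-- `M` is a II₁ factor and `τ` is its faithful normal tracial state. Here `τ` is given as a
function on `B(H)`, of which only the values on `M` matter. The normal states of `M ⊆ B(H)` are the
functionals `x ↦ ∑ₖ ⟪ξₖ, x ξₖ⟫` with `∑ₖ ‖ξₖ‖² = 1`. -/
structure IsII1Factor (M : VonNeumannAlgebra H) (τ : (H →L[ℂ] H) → ℂ) : Prop where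
  factor : ∀ z ∈ M, (∀ a ∈ M, z * a = a * z) → ∃ c : ℂ, z = c • 1
  infinite : ∀ s : Finset (H →L[ℂ] H), ∃ x ∈ M, x ∉ Submodule.span ℂ (s : Set (H →L[ℂ] H))
  normal : ∃ ξ : ℕ → H, Summable (fun k => ‖ξ k‖ ^ 2) ∧ ∀ a ∈ M, τ a = ∑' k, ⟪ξ k, a (ξ k)⟫_ℂ
  unital : τ 1 = 1
  tracial : ∀ a ∈ M, ∀ b ∈ M, τ (a * b) = τ (b * a)
  faithful : ∀ a ∈ M, τ (star a * a) = 0 → a = 0

/-- The closed unit ball of `M`. -/
def unitBall (M : VonNeumannAlgebra H) : Set (H →L[ℂ] H) := {x | x ∈ M ∧ ‖x‖ ≤ 1}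

/-- The Kadison–Kastler distance: the Hausdorff distance of the unit balls in operator norm. -/
noncomputable def kkDist (M N : VonNeumannAlgebra H) : ℝ :=
  Metric.hausdorffDist (unitBall M) (unitBall N)

/-- The `pᵢ` are projections of `M`, and the vectors `ζᵢ` generate pairwise orthogonal copies of
the left `M`-modules `L²(M, τ) pᵢ` in `H`. -/
structure IsCopies (M : VonNeumannAlgebra H) (τ : (H →L[ℂ] H) → ℂ) {n : ℕ}
    (p : Fin n → (H →L[ℂ] H)) (ζ : Fin n → H) : Prop where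
  mem : ∀ i, p i ∈ M
  proj : ∀ i, IsStarProjection (p i)
  inner : ∀ x ∈ M, ∀ i j : Fin n, ⟪ζ j, x (ζ i)⟫_ℂ = if i = j then τ (x * p i) else 0

/-- The Murray–von Neumann dimension (coupling constant) of `H` as a left `M`-module: the supremum
of `∑ᵢ τ(pᵢ)` over all finite families of orthogonal copies of modules `L²(M, τ) pᵢ` in `H`. -/
noncomputable def dim (M : VonNeumannAlgebra H) (τ : (H →L[ℂ] H) → ℂ) : ℝ≥0∞ :=
  ⨆ (n : ℕ) (p : Fin n → (H →L[ℂ] H)) (ζ : Fin n → H) (_ : IsCopies M τ p ζ),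
    ∑ i, ENNReal.ofReal (τ (p i)).re

end Defs

section Proof

open Pool.Agent.TH254.CC

variable {H : Type} [NormedAddCommGroup H] [InnerProductSpace ℂ H] [CompleteSpace H]

theorem inf_of {M : VonNeumannAlgebra H}
    (h : ∀ s : Finset (H →L[ℂ] H), ∃ x ∈ M, x ∉ Submodule.span ℂ (s : Set (H →L[ℂ] H))) :
    ¬ FiniteDimensional ℂ M.toStarSubalgebra := by
  classical
  intro hf
  obtain ⟨s, hs⟩ := (Module.finite_def.mp hf)
  obtain ⟨x, hx, hxs⟩ := h (s.image fun y : M.toStarSubalgebra => (y : H →L[ℂ] H))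
  refine hxs ?_
  have h1 : (⟨x, hx⟩ : M.toStarSubalgebra) ∈ Submodule.span ℂ (s : Set M.toStarSubalgebra) := by
    rw [hs]; trivial
  have h2 := Submodule.mem_map_of_mem
    (f := M.toStarSubalgebra.subtype.toLinearMap) h1
  rw [Submodule.map_span] at h2
  rw [Finset.coe_image]
  exact h2

theorem fn_of {M : VonNeumannAlgebra H} {τ : (H →L[ℂ] H) → ℂ} (h : IsII1Factor M τ)
    {ξ : ℕ → H} (hs : Summable fun k => ‖ξ k‖ ^ 2)
    (hξ : ∀ a ∈ M, τ a = tr ξ a) : Fn M ξ where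
  fac := h.factor
  inf := inf_of h.infinite
  sum := hs
  one := by rw [← hξ 1 (one_mem M), h.unital]
  comm a ha b hb := by
    rw [← hξ _ (mul_mem ha hb), ← hξ _ (mul_mem hb ha), h.tracial a ha b hb]
  faithful a ha h0 := by
    refine h.faithful a ha ?_
    rw [hξ _ (mul_mem (star_mem ha) ha), h0]

theorem dim_le {M N : VonNeumannAlgebra H} {τ σ : (H →L[ℂ] H) → ℂ} (hM : IsII1Factor M τ)
    (hN : IsII1Factor N σ) {δ : ℝ} (hδ0 : 0 < δ) (hδ : δ ≤ 1 / 10 ^ 22) (hMN : Near M N δ)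
    (hNM : Near N M δ) : dim M τ ≤ dim N σ := by
  obtain ⟨ξ, hs, hξ0⟩ := hM.normal
  obtain ⟨ξ', hs', hξ0'⟩ := hN.normal
  have hξ : ∀ a ∈ M, τ a = tr ξ a := hξ0
  have hξ' : ∀ a ∈ N, σ a = tr ξ' a := hξ0'
  refine iSup_le fun n => iSup_le fun p => iSup_le fun ζ => iSup_le fun h => ?_
  have hF : Fam M ξ p ζ := by
    refine ⟨fun i => ⟨h.mem i, (h.proj i).isSelfAdjoint.star_eq, (h.proj i).isIdempotentElem⟩, ?_⟩
    intro x hx i j
    rw [h.inner x hx i j, hξ _ (mul_mem hx (h.mem i))]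
  obtain ⟨q, η, hq, hqt⟩ := transfer (fn_of hM hs hξ) (fn_of hN hs' hξ') hδ0 hδ hMN hNM hF
  have hc : IsCopies N σ q η := by
    refine ⟨fun i => (hq.mem i).1, fun i => ⟨(hq.mem i).2.2, (hq.mem i).2.1⟩, ?_⟩
    intro x hx i j
    rw [hq.inn x hx i j, hξ' _ (mul_mem hx (hq.mem i).1)]
  have he : ∀ i, τ (p i) = σ (q i) := fun i => by
    rw [hξ _ (h.mem i), hξ' _ (hq.mem i).1, hqt]
  calc ∑ i, ENNReal.ofReal (τ (p i)).re = ∑ i, ENNReal.ofReal (σ (q i)).re :=
        Finset.sum_congr rfl fun i _ => by rw [he]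
    _ ≤ dim N σ := le_iSup_of_le n (le_iSup_of_le q (le_iSup_of_le η (le_iSup_of_le hc le_rfl)))

theorem near_of {M N : VonNeumannAlgebra H} {δ : ℝ} (h : kkDist M N < δ) :
    Near M N δ := by
  intro x hx
  have hb : ∀ L : VonNeumannAlgebra H, (unitBall L).Nonempty ∧ Bornology.IsBounded (unitBall L) :=
    fun L => ⟨⟨0, zero_mem L, by simp⟩, (Metric.isBounded_closedBall (x := (0 : H →L[ℂ] H))
      (r := 1)).subset fun y hy => by simpa using hy.2⟩
  by_cases hx0 : x = 0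
  · exact ⟨0, zero_mem N, by simp [hx0]⟩
  have hn : ‖x‖ ≠ 0 := norm_ne_zero_iff.mpr hx0
  have h1 : ((‖x‖⁻¹ : ℝ) : ℂ) • x ∈ unitBall M := by
    refine ⟨vn_smul M _ hx, ?_⟩
    rw [norm_smul]
    simp [hn]
  obtain ⟨y, hy, hxy⟩ := Metric.exists_dist_lt_of_hausdorffDist_lt h1 h
    (Metric.hausdorffEDist_ne_top_of_nonempty_of_bounded (hb M).1 (hb N).1 (hb M).2 (hb N).2)
  refine ⟨((‖x‖ : ℝ) : ℂ) • y, vn_smul N _ hy.1, ?_⟩
  have e : x - ((‖x‖ : ℝ) : ℂ) • y = ((‖x‖ : ℝ) : ℂ) • (((‖x‖⁻¹ : ℝ) : ℂ) • x - y) := by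
    rw [smul_sub, smul_smul]
    have : ((‖x‖ : ℝ) : ℂ) * ((‖x‖⁻¹ : ℝ) : ℂ) = 1 := by
      rw [← Complex.ofReal_mul, mul_inv_cancel₀ hn, Complex.ofReal_one]
    rw [this, one_smul]
  rw [e, norm_smul, mul_comm]
  rw [dist_eq_norm] at hxy
  have h2 : ‖((‖x‖ : ℝ) : ℂ)‖ = ‖x‖ := by simp
  rw [h2]
  exact mul_le_mul_of_nonneg_right hxy.le (norm_nonneg x)

end Proof

/-- **Close II₁ factors have the same coupling constant**: if `M` and `N` are II₁ factors on `H`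
at Kadison–Kastler distance less than `10⁻²²`, then `dim_M(H) = dim_N(H)`. -/
theorem result (H : Type) [NormedAddCommGroup H] [InnerProductSpace ℂ H] [CompleteSpace H]
    (M N : VonNeumannAlgebra H) (τ σ : (H →L[ℂ] H) → ℂ) (hM : IsII1Factor M τ)
    (hN : IsII1Factor N σ) (h : kkDist M N < 1 / 10 ^ 22) : dim M τ = dim N σ := by
  have h' : kkDist N M < 1 / 10 ^ 22 := by
    unfold kkDist at h ⊢
    rwa [Metric.hausdorffDist_comm]
  have h0 : (0 : ℝ) < 1 / 10 ^ 22 := by positivity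
  exact le_antisymm (dim_le hM hN h0 le_rfl (near_of h) (near_of h'))
    (dim_le hN hM h0 le_rfl (near_of h') (near_of h))

end Pool.Agent.Results.MP_41729c_an.CouplingAgree
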